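import Pool.Agent.helper67NX.Val

/-!
# The tuples attached to a piece and an abc triple
-/

set_option autoImplicit false

namespace Pool.Agent.H67NX

open Pool.Agent.KS6_67.NC

variable {m : ℕ}

/-- `max |x_i|` -/
def size {n : ℕ} (x : Fin n → ℤ) : ℕ := Finset.univ.sup fun i => (x i).natAbs

theorem le_size {n : ℕ} (x : Fin n → ℤ) (i : Fin n) : (x i).natAbs ≤ size x :=
  Finset.le_sup (f := fun i => (x i).natAbs) (Finset.mem_univ i)

theorem dvd_rad {p n : ℕ} (hp : p.Prime) (hn : n ≠ 0) (h : p ∣ n) :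
    p ∣ Pool.Agent.H390R2.rad n :=
  Finset.dvd_prod_of_mem _ (Nat.mem_primeFactors.mpr ⟨hp, h, hn⟩)

theorem rad_pos (n : ℕ) : 0 < Pool.Agent.H390R2.rad n :=
  Finset.prod_pos fun _ hp => (Nat.prime_of_mem_primeFactors hp).pos

theorem prime_dvd (P : Piece m) {a b p : ℕ} (ha : 0 < a) (hb : 0 < b) (hp : p.Prime) {i : P.ι}
    (h : (p : ℤ) ∣ val P a b i) :
    p ∣ (∏ i, (P.κ i).natAbs) * Pool.Agent.H390R2.rad (a * b * (a + b)) *
      ((a : ℤ) - b).natAbs := by
  have hpi : Prime (p : ℤ) := Nat.prime_iff_prime_int.mp hp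
  have hn : a * b * (a + b) ≠ 0 := by positivity
  unfold val at h
  rcases hpi.dvd_or_dvd h with h | h
  · have h1 : p ∣ (P.κ i).natAbs := Int.natCast_dvd.mp h
    have h2 : p ∣ ∏ i, (P.κ i).natAbs := h1.trans (Finset.dvd_prod_of_mem _ (Finset.mem_univ i))
    exact Dvd.dvd.mul_right (Dvd.dvd.mul_right h2 _) _
  rcases hpi.dvd_or_dvd h with h | h
  · refine Dvd.dvd.mul_right (Dvd.dvd.mul_left (dvd_rad hp hn ?_) _) _
    rcases hpi.dvd_or_dvd h with h | h
    · have h1 : p ∣ a := by exact_mod_cast hpi.dvd_of_dvd_pow h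
      exact Dvd.dvd.mul_right (Dvd.dvd.mul_right h1 _) _
    · have h1 : p ∣ b := by exact_mod_cast hpi.dvd_of_dvd_pow h
      exact Dvd.dvd.mul_right (Dvd.dvd.mul_left h1 _) _
  · rcases hpi.dvd_or_dvd h with h | h
    · refine Dvd.dvd.mul_right (Dvd.dvd.mul_left (dvd_rad hp hn ?_) _) _
      have h1 : p ∣ a + b := by exact_mod_cast hpi.dvd_of_dvd_pow h
      exact Dvd.dvd.mul_left h1 _
    · have h1 : p ∣ ((a : ℤ) - b).natAbs := Int.natCast_dvd.mp (hpi.dvd_of_dvd_pow h)
      exact Dvd.dvd.mul_left h1 _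

/-- The tuple attached to `(a, b, c)`, on the index type of the piece. -/
theorem family0 (P : Piece m) : ∃ B E : ℕ, 0 < E ∧ ∀ a b c : ℕ, 0 < a → 0 < b → a + b = c →
    Nat.Coprime a b → B < c →
    ∃ y : P.ι → ℤ, ∑ i, y i = 0 ∧ Finset.univ.gcd y = 1 ∧
      (∀ I : Finset P.ι, I.Nonempty → I ≠ Finset.univ → ∑ i ∈ I, y i ≠ 0) ∧
      (∃ i, c ^ (4 * m) ≤ E * (y i).natAbs) ∧ (∀ i, (y i).natAbs ≤ E * c ^ (4 * m)) ∧
      rad y ≤ E * Pool.Agent.H390R2.rad (a * b * c) * c := by
  classical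
  obtain ⟨B, hB⟩ := exists_bound P
  set K : ℕ := ∏ i, (P.κ i).natAbs with hK
  set G : ℕ := (P.κ P.A * P.κ P.B).natAbs with hG
  have hK1 : ∀ i, (P.κ i).natAbs ≤ K := by
    intro i
    rw [hK]
    exact Nat.le_of_dvd (Finset.prod_pos fun i _ => Int.natAbs_pos.mpr (P.ne i))
      (Finset.dvd_prod_of_mem _ (Finset.mem_univ i))
  have hKpos : 0 < K := Finset.prod_pos fun i _ => Int.natAbs_pos.mpr (P.ne i)
  have hGpos : 0 < G := Int.natAbs_pos.mpr (mul_ne_zero (P.ne _) (P.ne _))
  refine ⟨max B 2, 4 ^ (4 * m) * G * K, by positivity, ?_⟩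
  rintro a b c ha hb rfl hcop hc
  have hcB : B < a + b := (le_max_left _ _).trans_lt hc
  have hc2 : 2 < a + b := (le_max_right _ _).trans_lt hc
  have hbz : (b : ℤ) ≠ 0 := by exact_mod_cast hb.ne'
  have hD : 0 < ((a : ℤ) - b).natAbs := by
    rw [Int.natAbs_pos]
    intro h0
    have h1 : a = b := by omega
    rw [h1, Nat.coprime_self] at hcop
    omega
  have hDle : ((a : ℤ) - b).natAbs ≤ a + b := by omega
  have hcopz : IsCoprime (a : ℤ) (b : ℤ) := Nat.isCoprime_iff_coprime.mpr hcop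
  set x := val P a b with hx
  set g := Finset.univ.gcd x with hg
  have hlow := lower P a b
  have hmaxpos : 0 < max (x P.A).natAbs (x P.B).natAbs := by
    by_contra h0
    have h1 : max (x P.A).natAbs (x P.B).natAbs = 0 := by omega
    rw [← hx, h1, mul_zero] at hlow
    have : 0 < (a + b) ^ (4 * m) := by positivity
    omega
  have hgdvd : g ∣ P.κ P.A * P.κ P.B :=
    gcd_dvd P hcopz (Finset.gcd_dvd (Finset.mem_univ _)) (Finset.gcd_dvd (Finset.mem_univ _))
  have hgne : g ≠ 0 := by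
    intro h0
    rw [h0, zero_dvd_iff] at hgdvd
    exact mul_ne_zero (P.ne _) (P.ne _) hgdvd
  have hgG : g.natAbs ≤ G := Nat.le_of_dvd hGpos (Int.natAbs_dvd_natAbs.mpr hgdvd)
  have hg1 : 1 ≤ g.natAbs := Int.natAbs_pos.mpr hgne
  have hdiv : ∀ i, x i / g * g = x i := fun i =>
    Int.ediv_mul_cancel (Finset.gcd_dvd (Finset.mem_univ _))
  have hdivabs : ∀ i, (x i / g).natAbs * g.natAbs = (x i).natAbs := by
    intro i
    rw [← Int.natAbs_mul, hdiv]
  obtain ⟨i₀, hi₀⟩ : ∃ i, (x i).natAbs = max (x P.A).natAbs (x P.B).natAbs := by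
    rcases le_total (x P.A).natAbs (x P.B).natAbs with h | h
    · exact ⟨P.B, (max_eq_right h).symm⟩
    · exact ⟨P.A, (max_eq_left h).symm⟩
  have hx0 : x i₀ ≠ 0 := by
    intro h0
    rw [h0, Int.natAbs_zero] at hi₀
    omega
  refine ⟨fun i => x i / g, ?_, ?_, ?_, ⟨i₀, ?_⟩, ?_, ?_⟩
  · have h1 : (∑ i, x i / g) * g = 0 := by
      rw [Finset.sum_mul, Finset.sum_congr rfl (fun i _ => hdiv i)]
      exact sum_val P hbz
    exact (mul_eq_zero.mp h1).resolve_right hgne
  · exact Finset.gcd_div_eq_one (Finset.mem_univ i₀) hx0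
  · intro I h1 h2 h0
    apply hB a b hb hcop hcB I h1 h2
    have h3 : (∑ i ∈ I, x i / g) * g = 0 := by rw [h0, zero_mul]
    rw [Finset.sum_mul, Finset.sum_congr rfl (fun i _ => hdiv i)] at h3
    exact h3
  · calc (a + b) ^ (4 * m) ≤ 4 ^ (4 * m) * (x i₀).natAbs := by rw [hi₀]; exact hlow
      _ = 4 ^ (4 * m) * ((x i₀ / g).natAbs * g.natAbs) := by rw [hdivabs]
      _ ≤ 4 ^ (4 * m) * ((x i₀ / g).natAbs * G) := by gcongr
      _ = 4 ^ (4 * m) * G * 1 * (x i₀ / g).natAbs := by ring
      _ ≤ 4 ^ (4 * m) * G * K * (x i₀ / g).natAbs := by gcongr; omega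
  · intro i
    calc (x i / g).natAbs = (x i / g).natAbs * 1 := (mul_one _).symm
      _ ≤ (x i / g).natAbs * g.natAbs := by gcongr
      _ = (x i).natAbs := hdivabs i
      _ ≤ (P.κ i).natAbs * (a + b) ^ (4 * m) := upper P a b i
      _ ≤ K * (a + b) ^ (4 * m) := by gcongr; exact hK1 i
      _ = 1 * K * (a + b) ^ (4 * m) := by rw [one_mul]
      _ ≤ 4 ^ (4 * m) * G * K * (a + b) ^ (4 * m) := by
          gcongr
          exact Nat.mul_pos (by positivity) hGpos
  · have h1 : rad (fun i => x i / g) ≤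
        K * Pool.Agent.H390R2.rad (a * b * (a + b)) * ((a : ℤ) - b).natAbs := by
      apply rad_le_of
      · have := rad_pos (a * b * (a + b))
        positivity
      · intro p hp i hi
        apply prime_dvd P ha hb hp (i := i)
        rw [← hx, ← hdiv i]
        exact Dvd.dvd.mul_right hi _
    calc rad (fun i => x i / g)
        ≤ K * Pool.Agent.H390R2.rad (a * b * (a + b)) * ((a : ℤ) - b).natAbs := h1
      _ ≤ K * Pool.Agent.H390R2.rad (a * b * (a + b)) * (a + b) := by gcongr
      _ = 1 * K * Pool.Agent.H390R2.rad (a * b * (a + b)) * (a + b) := by rw [one_mul]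
      _ ≤ 4 ^ (4 * m) * G * K * Pool.Agent.H390R2.rad (a * b * (a + b)) * (a + b) := by
          gcongr
          exact Nat.mul_pos (by positivity) hGpos

/-- The tuple attached to `(a, b, c)`, indexed by `Fin (m + 2)`. -/
theorem family (P : Piece m) : ∃ B E : ℕ, 0 < E ∧ ∀ a b c : ℕ, 0 < a → 0 < b → a + b = c →
    Nat.Coprime a b → B < c →
    ∃ y : Fin (m + 2) → ℤ, ∑ i, y i = 0 ∧ Finset.univ.gcd y = 1 ∧
      (∀ I : Finset (Fin (m + 2)), I.Nonempty → I ≠ Finset.univ → ∑ i ∈ I, y i ≠ 0) ∧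
      c ^ (4 * m) ≤ E * size y ∧ size y ≤ E * c ^ (4 * m) ∧
      rad y ≤ E * Pool.Agent.H390R2.rad (a * b * c) * c := by
  classical
  obtain ⟨B, E, hE, h⟩ := family0 P
  refine ⟨B, E, hE, fun a b c ha hb hc hcop hBc => ?_⟩
  obtain ⟨y, h1, h2, h3, ⟨i, h4⟩, h5, h6⟩ := h a b c ha hb hc hcop hBc
  set e : Fin (m + 2) ≃ P.ι := (Fintype.equivFinOfCardEq P.card).symm with he
  refine ⟨y ∘ e, ?_, ?_, ?_, ?_, ?_, ?_⟩
  · rw [← h1]; exact Equiv.sum_comp e y
  · rw [← h2]
    apply dvd_antisymm_of_normalize_eq Finset.normalize_gcd Finset.normalize_gcd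
    · apply Finset.dvd_gcd
      intro b _
      have : y b = (y ∘ e) (e.symm b) := by simp
      rw [this]
      exact Finset.gcd_dvd (Finset.mem_univ _)
    · apply Finset.dvd_gcd
      intro b _
      exact Finset.gcd_dvd (Finset.mem_univ _)
  · intro I hI hI' h0
    apply h3 (I.map e.toEmbedding) (hI.map) ?_ ?_
    · intro h
      apply hI'
      rw [Finset.eq_univ_iff_forall]
      intro a
      have : e a ∈ I.map e.toEmbedding := by rw [h]; exact Finset.mem_univ _
      rw [Finset.mem_map] at this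
      obtain ⟨b, hb, hb'⟩ := this
      rw [Equiv.coe_toEmbedding] at hb'
      rwa [← e.injective hb']
    · rw [Finset.sum_map]; exact h0
  · refine h4.trans (Nat.mul_le_mul_left _ ?_)
    have := le_size (y ∘ e) (e.symm i)
    simpa using this
  · exact Finset.sup_le fun i _ => h5 (e i)
  · have hr : rad (y ∘ e) = rad y := by
      unfold rad
      have : ∏ j, (y ∘ e) j = ∏ j, y j := Equiv.prod_comp e y
      rw [this]
    rw [hr]
    exact h6

/-- The asymptotic estimate: a piece gives tuples with `M > R ^ (2 m) exp (K √(log M) / log log M)`,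
for every `K < 6.84 √m`. -/
theorem excess (hm : 1 ≤ m) (P : Piece m) (K : ℝ) (hK : K < 6.84 * √(m : ℝ)) (X : ℝ) :
    ∃ y : Fin (m + 2) → ℤ, (∑ i, y i = 0 ∧ Finset.univ.gcd y = 1 ∧
      (∀ I : Finset (Fin (m + 2)), I.Nonempty → I ≠ Finset.univ → ∑ i ∈ I, y i ≠ 0)) ∧
      X < size y ∧ (rad y : ℝ) ^ (2 * m) *
        Real.exp (K * √(Real.log (size y)) / Real.log (Real.log (size y))) < size y := by
  obtain ⟨B, E, hE0, hE⟩ := family P
  have hmR : (1 : ℝ) ≤ m := by exact_mod_cast hm
  have hm0R : (0 : ℝ) < m := by linarith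
  have hsm : 0 < √(m : ℝ) := Real.sqrt_pos.mpr hm0R
  have hsm2 : √(m : ℝ) * √(m : ℝ) = m := Real.mul_self_sqrt hm0R.le
  set K' : ℝ := max K 0 with hK'
  have hK'0 : 0 ≤ K' := le_max_right _ _
  have hK'lt : K' < 6.84 * √(m : ℝ) := max_lt hK (by positivity)
  set δ : ℝ := 2 * √(m : ℝ) * (6.84 * √(m : ℝ) - K') with hδ
  have hδ0 : 0 < δ := by
    have : 0 < 6.84 * √(m : ℝ) - K' := by linarith
    positivity
  set LE : ℝ := Real.log E with hLE
  have hlogE : 0 ≤ LE := Real.log_natCast_nonneg E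
  set A : ℝ := (4 * m + 1) * LE + K' * √LE with hA
  have hA0 : 0 ≤ A := by positivity
  -- `l` large
  obtain ⟨l0, hl0⟩ : ∃ l0 : ℝ, ∀ l : ℝ, l0 ≤ l → A * Real.log l < δ * √l := by
    have h1 := (isLittleO_log_rpow_atTop (r := 1 / 2) (by norm_num)).bound
      (c := δ / (A + 1)) (by positivity)
    obtain ⟨l1, hl1⟩ := Filter.eventually_atTop.mp h1
    refine ⟨max l1 1, fun l hl => ?_⟩
    have h2 := hl1 l ((le_max_left _ _).trans hl)
    have hl1' : 1 ≤ l := (le_max_right _ _).trans hl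
    have hlpos : 0 < l := by linarith
    rw [← Real.sqrt_eq_rpow] at h2
    have hlog : 0 ≤ Real.log l := Real.log_nonneg hl1'
    rw [Real.norm_of_nonneg hlog, Real.norm_of_nonneg (Real.sqrt_nonneg l)] at h2
    have hsl : 0 < √l := Real.sqrt_pos.mpr hlpos
    calc A * Real.log l ≤ A * (δ / (A + 1) * √l) := mul_le_mul_of_nonneg_left h2 hA0
      _ = (A / (A + 1)) * (δ * √l) := by ring
      _ < 1 * (δ * √l) := by
          refine mul_lt_mul_of_pos_right ?_ (by positivity)
          rw [div_lt_one (by positivity)]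
          linarith
      _ = δ * √l := one_mul _
  obtain ⟨a, b, c, habc, hX, hgood⟩ := Pool.Agent.TH871.L1.good_triples (K := 171 / 25)
    (by norm_num) le_rfl (max (max l0 (max B E)) (max (max X 0 + LE) (Real.exp 1)))
  obtain ⟨ha, hb, hc, hsum, hcop, -, -⟩ := habc
  set l : ℝ := Real.log c with hl
  have hl0' : l0 ≤ l := ((le_max_left _ _).trans (le_max_left _ _)).trans hX.le
  have hBl : (B : ℝ) < l :=
    (((le_max_left _ _).trans (le_max_right _ _)).trans (le_max_left _ _)).trans_lt hX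
  have hEl : (E : ℝ) < l :=
    (((le_max_right _ _).trans (le_max_right _ _)).trans (le_max_left _ _)).trans_lt hX
  have hXl : max X 0 + LE < l := ((le_max_left _ _).trans (le_max_right _ _)).trans_lt hX
  have hel : Real.exp 1 < l := ((le_max_right _ _).trans (le_max_right _ _)).trans_lt hX
  have hlpos : 0 < l := (Real.exp_pos 1).trans hel
  have hlogl : 1 < Real.log l := by
    rw [Real.lt_log_iff_exp_lt hlpos]
    exact hel
  have hcR : (0 : ℝ) < c := by exact_mod_cast hc
  have hlc : l ≤ c := (Real.log_le_sub_one_of_pos hcR).trans (by linarith)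
  have hBc : B < c := by
    have : (B : ℝ) < c := by linarith
    exact_mod_cast this
  obtain ⟨y, hy1, hy2, hy3, hy4, hy5, hy6⟩ := hE a b c ha hb hsum hcop hBc
  have hER : (0 : ℝ) < E := by exact_mod_cast hE0
  have hE1 : (1 : ℝ) ≤ E := by exact_mod_cast hE0
  have h4 : (c : ℝ) ^ (4 * m) ≤ E * size y := by exact_mod_cast hy4
  have h5 : (size y : ℝ) ≤ E * (c : ℝ) ^ (4 * m) := by exact_mod_cast hy5
  have hsz : (0 : ℝ) < size y := by
    by_contra h0
    have h1 : (0 : ℝ) < (c : ℝ) ^ (4 * m) := by positivity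
    have h2 : (E : ℝ) * size y ≤ 0 := mul_nonpos_of_nonneg_of_nonpos hER.le (not_lt.mp h0)
    linarith
  set LM : ℝ := Real.log (size y) with hLM
  have hlow : 4 * m * l - LE ≤ LM := by
    have h1 := Real.log_le_log (by positivity) h4
    rw [Real.log_pow, Real.log_mul hER.ne' hsz.ne'] at h1
    push_cast at h1
    linarith
  have hup : LM ≤ 4 * m * l + LE := by
    have h1 := Real.log_le_log hsz h5
    rw [Real.log_mul hER.ne' (by positivity), Real.log_pow] at h1
    push_cast at h1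
    linarith
  have h4ml : 4 * l ≤ 4 * m * l := by nlinarith
  have hLMl : l ≤ LM := by
    have : LE < l := by linarith [le_max_right X 0]
    linarith
  refine ⟨y, ⟨hy1, hy2, hy3⟩, ?_, ?_⟩
  · have h1 : LM ≤ size y := (Real.log_le_sub_one_of_pos hsz).trans (by linarith)
    have h2 : X ≤ max X 0 := le_max_left _ _
    linarith
  · set R : ℕ := rad y with hR
    have hR0 : 0 < R := Finset.prod_pos fun p hp => (Nat.prime_of_mem_primeFactors hp).pos
    have hR0R : (0 : ℝ) < R := by exact_mod_cast hR0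
    have hrad0R : (0 : ℝ) < Pool.Agent.H390R2.rad (a * b * c) := by
      exact_mod_cast rad_pos (a * b * c)
    have hlogR : Real.log R ≤ LE + Real.log (Pool.Agent.H390R2.rad (a * b * c)) + l := by
      rw [hLE, hl, ← Real.log_mul hER.ne' hrad0R.ne', ← Real.log_mul (by positivity) hcR.ne']
      exact Real.log_le_log hR0R (by exact_mod_cast hy6)
    have hsl : 0 < √l := Real.sqrt_pos.mpr hlpos
    have hlogl0 : 0 < Real.log l := by linarith
    have hlogLM : Real.log l ≤ Real.log LM := Real.log_le_log hlpos hLMl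
    have hsqrt : √LM ≤ 2 * √(m : ℝ) * √l + √LE := by
      have h1 : √LM ≤ √(4 * m * l + LE) := Real.sqrt_le_sqrt hup
      have h2 : √(4 * m * l + LE) ≤ √(4 * m * l) + √LE := by
        have e0 : 0 ≤ 4 * m * l := by positivity
        have e1 := Real.sq_sqrt e0
        have e2 := Real.sq_sqrt hlogE
        have e3 : 0 ≤ √(4 * m * l) * √LE := by positivity
        apply Real.sqrt_le_iff.mpr
        refine ⟨by positivity, ?_⟩
        calc 4 * m * l + LE = √(4 * m * l) ^ 2 + √LE ^ 2 := by rw [e1, e2]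
          _ ≤ (√(4 * m * l) + √LE) ^ 2 := by nlinarith
      have h3 : √(4 * m * l) = 2 * √(m : ℝ) * √l := by
        rw [Real.sqrt_mul (by positivity), Real.sqrt_mul (by norm_num)]
        have : √(4 : ℝ) = 2 := by
          rw [show (4 : ℝ) = 2 ^ 2 by norm_num]
          exact Real.sqrt_sq (by norm_num)
        rw [this]
      linarith
    have hterm : K * √LM / Real.log LM ≤ K' * (2 * √(m : ℝ) * √l + √LE) / Real.log l := by
      have hLM0 : 0 < Real.log LM := by linarith
      calc K * √LM / Real.log LM ≤ K' * √LM / Real.log LM := by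
            gcongr
            exact le_max_left _ _
        _ ≤ K' * (2 * √(m : ℝ) * √l + √LE) / Real.log l := by gcongr
    have hmain : 2 * m * Real.log R + K * √LM / Real.log LM < LM := by
      have h2 : 2 * m * Real.log R ≤
          2 * m * LE + 4 * m * l - 2 * m * (171 / 25 * √l / Real.log l) := by
        have h3 : Real.log R ≤ LE + (2 * l - 171 / 25 * √l / Real.log l) := by linarith
        calc 2 * m * Real.log R ≤ 2 * m * (LE + (2 * l - 171 / 25 * √l / Real.log l)) := by
              gcongr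
          _ = _ := by ring
      have h6 : A < δ * √l / Real.log l := by
        rw [lt_div_iff₀ hlogl0]
        exact hl0 l hl0'
      have h7 : K' * (2 * √(m : ℝ) * √l + √LE) / Real.log l ≤
          2 * √(m : ℝ) * K' * √l / Real.log l + K' * √LE := by
        have e1 : K' * (2 * √(m : ℝ) * √l + √LE) / Real.log l =
            2 * √(m : ℝ) * K' * √l / Real.log l + K' * √LE / Real.log l := by ring
        rw [e1]
        have : K' * √LE / Real.log l ≤ K' * √LE := div_le_self (by positivity) hlogl.le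
        linarith
      have h8 : δ * √l / Real.log l = 2 * m * (171 / 25 * √l / Real.log l) -
          2 * √(m : ℝ) * K' * √l / Real.log l := by
        have e2 : δ = 6.84 * 2 * m - 2 * √(m : ℝ) * K' := by
          rw [hδ]
          linear_combination (2 * 6.84) * hsm2
        rw [e2]
        ring
      have h9 : A = 2 * m * LE + LE + K' * √LE + 2 * m * LE := by rw [hA]; ring
      have h10 : 0 ≤ 2 * m * LE := by positivity
      linarith
    calc (R : ℝ) ^ (2 * m) * Real.exp (K * √LM / Real.log LM)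
        = Real.exp (2 * m * Real.log R + K * √LM / Real.log LM) := by
          rw [Real.exp_add]
          congr 1
          have : (2 * m * Real.log R : ℝ) = ((2 * m : ℕ) : ℝ) * Real.log R := by push_cast; ring
          rw [this, Real.exp_nat_mul, Real.exp_log hR0R]
      _ < Real.exp LM := Real.exp_lt_exp.mpr hmain
      _ = size y := by rw [hLM, Real.exp_log hsz]

end Pool.Agent.H67NX
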