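import Pool.Agent.helper67NX.Fam
import Pool.Agent.KS6_67.NC.Piece8
import Pool.Agent.KS6_67.NC.Piece9
import Pool.Agent.KS6_67.NC.Piece10

/-! The sizes of the pieces: the semigroup generated by 8, 9, 10. -/

set_option autoImplicit false

namespace Pool.Agent.H67NX

open Pool.Agent.KS6_67.NC

/-- sizes reached by linking: the semigroup generated by 8, 9, 10 -/
theorem exists_piece (a b c : ℕ) (h : 1 ≤ a + b + c) :
    Nonempty (Piece (8 * a + 9 * b + 10 * c)) := by
  have step : ∀ {m₁ m₂ : ℕ}, 1 ≤ m₁ → 1 ≤ m₂ → Nonempty (Piece m₁) → Nonempty (Piece m₂) →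
      Nonempty (Piece (m₁ + m₂)) := fun h1 h2 ⟨P⟩ ⟨Q⟩ => ⟨link h1 h2 P Q⟩
  induction a with
  | succ a ih =>
    rcases Nat.eq_zero_or_pos (a + b + c) with h0 | h0
    · have : 8 * (a + 1) + 9 * b + 10 * c = 8 := by omega
      rw [this]; exact ⟨piece8⟩
    · have := step (by norm_num) (by omega) ⟨piece8⟩ (ih h0)
      have e : 8 + (8 * a + 9 * b + 10 * c) = 8 * (a + 1) + 9 * b + 10 * c := by ring
      rwa [e] at this
  | zero =>
    induction b with
    | succ b ih =>
      rcases Nat.eq_zero_or_pos (b + c) with h0 | h0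
      · have : 8 * 0 + 9 * (b + 1) + 10 * c = 9 := by omega
        rw [this]; exact ⟨piece9⟩
      · have := step (by norm_num) (by omega) ⟨piece9⟩ (ih (by omega))
        have e : 9 + (8 * 0 + 9 * b + 10 * c) = 8 * 0 + 9 * (b + 1) + 10 * c := by ring
        rwa [e] at this
    | zero =>
      induction c with
      | zero => omega
      | succ c ih =>
        rcases Nat.eq_zero_or_pos c with h0 | h0
        · subst h0; exact ⟨piece10⟩
        · have := step (by norm_num) (by omega) ⟨piece10⟩ (ih (by omega))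
          have e : 10 + (8 * 0 + 9 * 0 + 10 * c) = 8 * 0 + 9 * 0 + 10 * (c + 1) := by ring
          rwa [e] at this

/-- Every `m ≥ 32` and some smaller `m` are of the form `8a + 9b + 10c`. -/
theorem repr (m : ℕ) (h : 32 ≤ m ∨ m ∈ ({8, 9, 10, 16, 17, 18, 19, 20, 24, 25, 26, 27, 28, 29,
    30} : Finset ℕ)) : ∃ a b c, 1 ≤ a + b + c ∧ m = 8 * a + 9 * b + 10 * c := by
  by_cases h32 : 32 ≤ m
  · -- `m = 8 q + r`, `q ≥ 4`, `r ≤ 7`
    set q := m / 8 with hq
    set r := m % 8 with hr
    have h1 : m = 8 * q + r := by omega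
    have h2 : 4 ≤ q := by omega
    have h3 : r < 8 := by omega
    refine ⟨q - r % 2 - r / 2, r % 2, r / 2, by omega, by omega⟩
  · have h2 := h.resolve_left h32
    simp only [Finset.mem_insert, Finset.mem_singleton] at h2
    rcases h2 with h | h | h | h | h | h | h | h | h | h | h | h | h | h | h
    · exact ⟨1, 0, 0, by omega, by omega⟩
    · exact ⟨0, 1, 0, by omega, by omega⟩
    · exact ⟨0, 0, 1, by omega, by omega⟩
    · exact ⟨2, 0, 0, by omega, by omega⟩
    · exact ⟨1, 1, 0, by omega, by omega⟩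
    · exact ⟨1, 0, 1, by omega, by omega⟩
    · exact ⟨0, 1, 1, by omega, by omega⟩
    · exact ⟨0, 0, 2, by omega, by omega⟩
    · exact ⟨3, 0, 0, by omega, by omega⟩
    · exact ⟨2, 1, 0, by omega, by omega⟩
    · exact ⟨2, 0, 1, by omega, by omega⟩
    · exact ⟨1, 1, 1, by omega, by omega⟩
    · exact ⟨1, 0, 2, by omega, by omega⟩
    · exact ⟨0, 1, 2, by omega, by omega⟩
    · exact ⟨0, 0, 3, by omega, by omega⟩

end Pool.Agent.H67NX
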