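import Pool.Agent.KS6_67.NC.Eval
import Pool.Graph.R_seed8.TH871.L1.Const

/-!
# Evaluation of a piece at a pair of coprime integers

A `Piece m` (`Pool.Agent.KS6_67.NC.Circuit`) is an identity with `m + 2` terms
`κ u ^ a v ^ b (u + v) ^ c (u - v) ^ d` of degree `4 m`. Here it is evaluated at `(u, v) = (a, b)` for an
abc triple `a + b = c`.
-/

set_option autoImplicit false

open Polynomial

namespace Pool.Agent.H67NX

open Pool.Agent.KS6_67.NC

variable {m : ℕ}

/-- The value of the `i`-th term at `(u, v)`. -/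
def val (P : Piece m) (u v : ℤ) (i : P.ι) : ℤ :=
  P.κ i * (u ^ P.a i * v ^ (4 * m - (P.a i + P.c i + P.d i)) *
    ((u + v) ^ P.c i * (u - v) ^ P.d i))

theorem val_eq (P : Piece m) {u v : ℤ} (hv : v ≠ 0) (i : P.ι) :
    (val P u v i : ℚ) =
      (v : ℚ) ^ (4 * m) * (term (P.κ i) (P.a i) (P.c i) (P.d i)).eval ((u : ℚ) / v) := by
  have hv' : (v : ℚ) ≠ 0 := by exact_mod_cast hv
  have h := P.deg i
  obtain ⟨e, he⟩ : ∃ e, 4 * m = P.a i + P.c i + P.d i + e := ⟨_, (Nat.add_sub_of_le h).symm⟩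
  unfold val term
  rw [he, Nat.add_sub_cancel_left]
  simp only [eval_mul, eval_C, eval_pow, eval_X, eval_add, eval_sub, eval_one]
  push_cast
  obtain ⟨t, ht⟩ : ∃ t : ℚ, t = u / v := ⟨_, rfl⟩
  have h1 : (u : ℚ) = t * v := by rw [ht]; field_simp
  rw [← ht, h1]
  have h2 : t * (v : ℚ) + v = (t + 1) * v := by ring
  have h3 : t * (v : ℚ) - v = (t - 1) * v := by ring
  rw [h2, h3]
  simp only [mul_pow, pow_add]
  ring

theorem sum_val (P : Piece m) {u v : ℤ} (hv : v ≠ 0) : ∑ i, val P u v i = 0 := by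
  have h := congrArg (Polynomial.eval ((u : ℚ) / v)) P.sum
  rw [eval_finsetSum, eval_zero] at h
  have h2 : ((∑ i, val P u v i : ℤ) : ℚ) = 0 := by
    push_cast
    rw [Finset.sum_congr rfl (fun i _ => val_eq P hv i), ← Finset.mul_sum, h, mul_zero]
  exact_mod_cast h2

theorem exists_bound (P : Piece m) : ∃ B : ℕ, ∀ u v : ℕ, 0 < v → Nat.Coprime u v → B < u + v →
    ∀ I : Finset P.ι, I.Nonempty → I ≠ Finset.univ → ∑ i ∈ I, val P u v i ≠ 0 := by
  classical
  set p : ℚ[X] := ∏ I ∈ (Finset.univ : Finset (Finset P.ι)).filter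
    (fun I => I.Nonempty ∧ I ≠ Finset.univ), ∑ i ∈ I, term (P.κ i) (P.a i) (P.c i) (P.d i) with hp
  have hp0 : p ≠ 0 := by
    rw [hp, Finset.prod_ne_zero_iff]
    intro I hI
    rw [Finset.mem_filter] at hI
    exact P.subsum_ne I hI.2.1 hI.2.2
  refine ⟨∑ r ∈ p.roots.toFinset, (r.num.natAbs + r.den), fun u v hv huv hB I h1 h2 h0 => ?_⟩
  have hv0 : (v : ℤ) ≠ 0 := by exact_mod_cast hv.ne'
  have hvq : (v : ℚ) ^ (4 * m) ≠ 0 := pow_ne_zero _ (by exact_mod_cast hv.ne')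
  have hroot : p.IsRoot (((u : ℤ) : ℚ) / ((v : ℤ) : ℚ)) := by
    rw [IsRoot.def, hp, eval_prod]
    apply Finset.prod_eq_zero (i := I)
    · rw [Finset.mem_filter]; exact ⟨Finset.mem_univ _, h1, h2⟩
    · rw [eval_finsetSum]
      have h3 : ((∑ i ∈ I, val P u v i : ℤ) : ℚ) = 0 := by exact_mod_cast h0
      push_cast at h3
      rw [Finset.sum_congr rfl (fun i _ => val_eq P hv0 i), ← Finset.mul_sum] at h3
      exact (mul_eq_zero.mp h3).resolve_left (by exact_mod_cast hvq)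
  have hmem : (((u : ℤ) : ℚ) / ((v : ℤ) : ℚ)) ∈ p.roots.toFinset := by
    rw [Multiset.mem_toFinset, mem_roots hp0]
    exact hroot
  have h4 := Finset.single_le_sum (f := fun r : ℚ => r.num.natAbs + r.den)
    (fun _ _ => Nat.zero_le _) hmem
  have h5 : (((u : ℤ) : ℚ) / ((v : ℤ) : ℚ)).num = u :=
    Rat.num_div_eq_of_coprime (by exact_mod_cast hv) (by simpa using huv)
  have h6 : (((((u : ℤ) : ℚ) / ((v : ℤ) : ℚ)).den : ℕ) : ℤ) = v :=
    Rat.den_div_eq_of_coprime (by exact_mod_cast hv) (by simpa using huv)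
  have h7 : (((u : ℤ) : ℚ) / ((v : ℤ) : ℚ)).den = v := by exact_mod_cast h6
  simp only [h5, h7, Int.natAbs_natCast] at h4
  omega

theorem gcd_dvd (P : Piece m) {u v : ℤ} (huv : IsCoprime u v) {g : ℤ} (hA : g ∣ val P u v P.A)
    (hB : g ∣ val P u v P.B) : g ∣ P.κ P.A * P.κ P.B := by
  have hBd : 4 * m - (P.a P.B + P.c P.B + P.d P.B) = 0 := by
    have h1 := P.hB1
    have h2 := P.hB2
    omega
  unfold val at hA hB
  rw [P.hA1, P.hA2, pow_zero, pow_zero, mul_one, mul_one] at hA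
  rw [hBd, P.hB1, pow_zero, pow_zero, one_mul, one_mul] at hB
  have c1 : IsCoprime u (u + v) := by
    have := huv.add_mul_left_right 1
    simpa [add_comm] using this
  have c2 : IsCoprime v (u + v) := by
    have := huv.symm.add_mul_left_right 1
    simpa [add_comm] using this
  have c3 : IsCoprime u (u - v) := by
    have := (huv.neg_right).add_mul_left_right 1
    simpa [sub_eq_add_neg, add_comm] using this
  have c4 : IsCoprime v (u - v) := by
    have := huv.symm.add_mul_left_right (-1)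
    simpa [sub_eq_add_neg, add_comm] using this
  have hcop : ∀ s t x y : ℕ, IsCoprime (u ^ s * v ^ t) ((u + v) ^ x * (u - v) ^ y) := by
    intro s t x y
    exact IsCoprime.mul_left (IsCoprime.mul_right c1.pow c3.pow) (IsCoprime.mul_right c2.pow c4.pow)
  obtain ⟨x, y, hxy⟩ := hcop (P.a P.A) (4 * m - (P.a P.A + 0 + 0)) (P.c P.B) (P.d P.B)
  have e : P.κ P.A * P.κ P.B =
      (P.κ P.A * (u ^ P.a P.A * v ^ (4 * m - (P.a P.A + 0 + 0)))) * (P.κ P.B * x) +
      (P.κ P.B * ((u + v) ^ P.c P.B * (u - v) ^ P.d P.B)) * (P.κ P.A * y) := by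
    calc P.κ P.A * P.κ P.B = P.κ P.A * P.κ P.B *
          (x * (u ^ P.a P.A * v ^ (4 * m - (P.a P.A + 0 + 0))) +
          y * ((u + v) ^ P.c P.B * (u - v) ^ P.d P.B)) := by rw [hxy, mul_one]
      _ = _ := by ring
  rw [e]
  exact dvd_add (Dvd.dvd.mul_right hA _) (Dvd.dvd.mul_right hB _)

/-- the absolute value of a term -/
theorem natAbs_val (P : Piece m) (a b : ℕ) (i : P.ι) : (val P a b i).natAbs =
    (P.κ i).natAbs * (a ^ P.a i * b ^ (4 * m - (P.a i + P.c i + P.d i)) *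
      ((a + b) ^ P.c i * ((a : ℤ) - b).natAbs ^ P.d i)) := by
  unfold val
  rw [Int.natAbs_mul, Int.natAbs_mul, Int.natAbs_mul, Int.natAbs_mul, Int.natAbs_pow,
    Int.natAbs_pow, Int.natAbs_pow, Int.natAbs_pow, Int.natAbs_natCast, Int.natAbs_natCast]
  norm_cast

theorem upper (P : Piece m) (a b : ℕ) (i : P.ι) :
    (val P a b i).natAbs ≤ (P.κ i).natAbs * (a + b) ^ (4 * m) := by
  rw [natAbs_val]
  refine Nat.mul_le_mul_left _ ?_
  have hD : ((a : ℤ) - b).natAbs ≤ a + b := by omega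
  have h := P.deg i
  have e : (a + b) ^ (4 * m) = (a + b) ^ P.a i * (a + b) ^ (4 * m - (P.a i + P.c i + P.d i)) *
      ((a + b) ^ P.c i * (a + b) ^ P.d i) := by
    rw [← pow_add, ← pow_add, ← pow_add]
    congr 1
    omega
  rw [e]
  gcongr
  · omega
  · omega

theorem lower (P : Piece m) (a b : ℕ) :
    (a + b) ^ (4 * m) ≤ 4 ^ (4 * m) * max (val P a b P.A).natAbs (val P a b P.B).natAbs := by
  set D := ((a : ℤ) - b).natAbs with hD
  by_cases h : a + b ≤ 2 * D
  · refine le_trans ?_ (Nat.mul_le_mul_left _ (le_max_right _ _))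
    have hBd : 4 * m - (P.a P.B + P.c P.B + P.d P.B) = 0 := by
      have h1 := P.hB1
      have h2 := P.hB2
      omega
    rw [natAbs_val, hBd, P.hB1, pow_zero, pow_zero, one_mul, one_mul, ← hD]
    have hκ : 1 ≤ (P.κ P.B).natAbs := Int.natAbs_pos.mpr (P.ne _)
    have e := P.hB2
    calc (a + b) ^ (4 * m) = (a + b) ^ P.c P.B * (a + b) ^ P.d P.B := by rw [← pow_add, e]
      _ ≤ (a + b) ^ P.c P.B * (2 * D) ^ P.d P.B := by gcongr
      _ = 2 ^ P.d P.B * ((a + b) ^ P.c P.B * D ^ P.d P.B) := by rw [mul_pow]; ring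
      _ ≤ 4 ^ (4 * m) * ((a + b) ^ P.c P.B * D ^ P.d P.B) := by
          refine Nat.mul_le_mul_right _ ?_
          calc 2 ^ P.d P.B ≤ 4 ^ P.d P.B := Nat.pow_le_pow_left (by norm_num) _
            _ ≤ 4 ^ (4 * m) := Nat.pow_le_pow_right (by norm_num) (by omega)
      _ ≤ 4 ^ (4 * m) * ((P.κ P.B).natAbs * ((a + b) ^ P.c P.B * D ^ P.d P.B)) := by
          refine Nat.mul_le_mul_left _ ?_
          exact Nat.le_mul_of_pos_left _ hκ
  · refine le_trans ?_ (Nat.mul_le_mul_left _ (le_max_left _ _))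
    have h1 : a + b ≤ 4 * a := by omega
    have h2 : a + b ≤ 4 * b := by omega
    rw [natAbs_val, P.hA1, P.hA2, pow_zero, pow_zero, mul_one, mul_one]
    have hκ : 1 ≤ (P.κ P.A).natAbs := Int.natAbs_pos.mpr (P.ne _)
    have hdeg := P.deg P.A
    rw [P.hA1, P.hA2] at hdeg
    set s := P.a P.A with hs
    set t := 4 * m - (s + 0 + 0) with ht
    have e : s + t = 4 * m := by omega
    calc (a + b) ^ (4 * m) = (a + b) ^ s * (a + b) ^ t := by rw [← pow_add, e]
      _ ≤ (4 * a) ^ s * (4 * b) ^ t := by gcongr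
      _ = 4 ^ (4 * m) * (a ^ s * b ^ t) := by
          rw [mul_pow, mul_pow, ← e, pow_add]; ring
      _ ≤ 4 ^ (4 * m) * ((P.κ P.A).natAbs * (a ^ s * b ^ t)) := by
          refine Nat.mul_le_mul_left _ ?_
          exact Nat.le_mul_of_pos_left _ hκ

end Pool.Agent.H67NX
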